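import Mathlib
import Pool.Agent.H47.CoreIrr

namespace Pool.Agent.Results.MP_4a71d8_al.NotCapClosed

/-- the principal right ideal `sM` -/
def rid {M : Type} [Monoid M] (s : M) : Set M := Set.range (fun x => s * x)

/-- the core -/
def core (M : Type) [Monoid M] : Set M := {a | ∀ s : M, (rid a ∩ rid s).Nonempty}

/-- core irreducible elements -/
def CoreIrred {M : Type} [Monoid M] (s : M) : Prop :=
  s ∉ core M ∧ ∀ t a : M, a ∈ core M → s = t * a → IsUnit a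

open Pool.Agent.H47.CoreIrr in
theorem result : ∃ (M : Type) (_ : Monoid M), Countable M ∧ IsLeftCancelMul M ∧
    (∀ s t : M, rid s ∩ rid t = ∅ ∨ ∃ r : M, rid s ∩ rid t = rid r) ∧
    ∃ s t r : M, CoreIrred s ∧ CoreIrred t ∧ rid s ∩ rid t = rid r ∧ ¬ CoreIrred r := by
  have hr : ∀ s y : S, y ∈ rid s ↔ s ∣ y := fun s y =>
    ⟨fun ⟨c, h⟩ => ⟨c, h.symm⟩, fun ⟨c, h⟩ => ⟨c, h.symm⟩⟩
  have hc : ∀ a : S, a ∈ core S ↔ ∃ k, a = ⟨[], some k⟩ := fun a => by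
    rw [← core_iff]; simp only [core, Set.mem_ofPred_eq, Set.Nonempty, Set.mem_inter_iff, hr]
  refine ⟨S, inferInstance, inferInstance, inferInstance, fun s t => ?_, ⟨[true], some 0⟩,
    ⟨[], none⟩, ⟨[true], some 1⟩, ⟨by simp [hc], ?_⟩, ⟨by simp [hc], ?_⟩, ?_, fun h => ?_⟩
  · rcases (rid s ∩ rid t).eq_empty_or_nonempty with h | ⟨y, h1, h2⟩
    · exact Or.inl h
    · obtain ⟨r, h⟩ := rlcm s t y ((hr _ _).mp h1) ((hr _ _).mp h2)
      exact Or.inr ⟨r, Set.ext fun y => by simp only [Set.mem_inter_iff, hr, h]⟩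
  · rintro ⟨w, _ | i⟩ a ha h <;> obtain ⟨_ | k, rfl⟩ := (hc a).mp ha <;>
      first | exact isUnit_one | simp [mul_def, mul] at h
  · rintro ⟨w, _ | i⟩ a ha h <;> obtain ⟨_ | k, rfl⟩ := (hc a).mp ha <;>
      first | exact isUnit_one | simp [mul_def, mul] at h
  · ext y
    simp only [Set.mem_inter_iff, hr, dvd_none, dvd_some, List.nil_append]
    constructor
    · rintro ⟨h1, rfl | h2⟩
      · simp at h1
      · exact h2
    · exact fun h => ⟨⟨h.1, by simp⟩, Or.inr h⟩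
  · obtain ⟨⟨_ | ⟨b, w⟩, _ | k⟩, h⟩ := (h.2 ⟨[true], some 0⟩ ⟨[], some 1⟩
      ((hc _).mpr ⟨1, rfl⟩) rfl).exists_right_inv <;> simp [mul_def, mul, one_def] at h

end Pool.Agent.Results.MP_4a71d8_al.NotCapClosed
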